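import Pool.Agent.Helper50.Drop.RotDefs

/-!
# Piece ROT of MP_51c806_gt: rotations of the space and level loops
-/

set_option autoImplicit false

namespace Pool.Agent.Helper50.Drop

open Finset MeasureTheory
open scoped RealInnerProductSpace
open Pool.Agent.Helper76.Freq (Q ins tr gr ev cobd cup Pr Adm gp Dep Nrm R3 E6 ver pt qf IsTop IsBot
  H4 exists_isTop exists_isBot)

/-! ## coordinates -/

theorem rt_crs_0 (a b : R3) : crs a b 0 = a 1 * b 2 - a 2 * b 1 := rfl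
theorem rt_crs_1 (a b : R3) : crs a b 1 = a 2 * b 0 - a 0 * b 2 := rfl
theorem rt_crs_2 (a b : R3) : crs a b 2 = a 0 * b 1 - a 1 * b 0 := rfl

theorem rt_Rot_apply (v : R3) (α : ℝ) (a : R3) (i : Fin 3) :
    Rot v α a i = Real.cos α * a i + (1 - Real.cos α) * ⟪v, a⟫ * v i + Real.sin α * crs v a i := rfl

theorem rt_ext3 {a b : R3} (h0 : a 0 = b 0) (h1 : a 1 = b 1) (h2 : a 2 = b 2) : a = b := by
  ext i
  fin_cases i
  · exact h0
  · exact h1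
  · exact h2

theorem rt_norm3_one {v : R3} (hv : ‖v‖ = 1) : v 0 ^ 2 + v 1 ^ 2 + v 2 ^ 2 = 1 := by
  rw [← Pool.Agent.Helper76.Freq.norm3, hv]; norm_num

theorem rt_Rot_add (v : R3) (α : ℝ) (a b : R3) : Rot v α (a + b) = Rot v α a + Rot v α b := by
  apply rt_ext3 <;>
  simp only [rt_Rot_apply, PiLp.add_apply, rt_crs_0, rt_crs_1, rt_crs_2,
    Pool.Agent.Helper76.Freq.inner3] <;> ring

theorem rt_Rot_smul (v : R3) (α r : ℝ) (a : R3) : Rot v α (r • a) = r • Rot v α a := by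
  apply rt_ext3 <;>
  simp only [rt_Rot_apply, PiLp.smul_apply, smul_eq_mul, rt_crs_0, rt_crs_1, rt_crs_2,
    Pool.Agent.Helper76.Freq.inner3] <;> ring

theorem Rot_inner {v : R3} (hv : ‖v‖ = 1) (α : ℝ) (a b : R3) : ⟪Rot v α a, Rot v α b⟫ = ⟪a, b⟫ := by
  have h1 := rt_norm3_one hv
  have h2 := Real.sin_sq_add_cos_sq α
  rw [Pool.Agent.Helper76.Freq.inner3, Pool.Agent.Helper76.Freq.inner3]
  simp only [rt_Rot_apply, rt_crs_0, rt_crs_1, rt_crs_2, Pool.Agent.Helper76.Freq.inner3]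
  generalize Real.cos α = c at *
  generalize Real.sin α = s at *
  linear_combination ((1 - c) ^ 2 * (v 0 * a 0 + v 1 * a 1 + v 2 * a 2) *
      (v 0 * b 0 + v 1 * b 1 + v 2 * b 2) + s ^ 2 * (a 0 * b 0 + a 1 * b 1 + a 2 * b 2)) * h1 +
    ((a 0 * b 0 + a 1 * b 1 + a 2 * b 2) - (v 0 * a 0 + v 1 * a 1 + v 2 * a 2) *
      (v 0 * b 0 + v 1 * b 1 + v 2 * b 2)) * h2

theorem Rot_norm {v : R3} (hv : ‖v‖ = 1) (α : ℝ) (a : R3) : ‖Rot v α a‖ = ‖a‖ := by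
  have h := Rot_inner hv α a a
  rw [real_inner_self_eq_norm_sq, real_inner_self_eq_norm_sq] at h
  exact (sq_eq_sq₀ (norm_nonneg _) (norm_nonneg _)).1 h

theorem Rot_crs {v : R3} (hv : ‖v‖ = 1) (α : ℝ) (a b : R3) :
    Rot v α (crs a b) = crs (Rot v α a) (Rot v α b) := by
  have h1 := rt_norm3_one hv
  have h2 := Real.sin_sq_add_cos_sq α
  apply rt_ext3
  · rw [rt_crs_0, rt_Rot_apply, rt_Rot_apply, rt_Rot_apply, rt_Rot_apply, rt_Rot_apply]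
    simp only [rt_crs_0, rt_crs_1, rt_crs_2, Pool.Agent.Helper76.Freq.inner3]
    generalize Real.cos α = c at *
    generalize Real.sin α = s at *
    linear_combination (-(c * (1 - c)) * (a 1 * b 2 - a 2 * b 1) - (1 - c) * s *
      (v 1 * (a 0 * b 1 - a 1 * b 0) - v 2 * (a 2 * b 0 - a 0 * b 2))) * h1 -
      v 0 * (v 0 * (a 1 * b 2 - a 2 * b 1) + v 1 * (a 2 * b 0 - a 0 * b 2) +
        v 2 * (a 0 * b 1 - a 1 * b 0)) * h2
  · rw [rt_crs_1, rt_Rot_apply, rt_Rot_apply, rt_Rot_apply, rt_Rot_apply, rt_Rot_apply]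
    simp only [rt_crs_0, rt_crs_1, rt_crs_2, Pool.Agent.Helper76.Freq.inner3]
    generalize Real.cos α = c at *
    generalize Real.sin α = s at *
    linear_combination (-(c * (1 - c)) * (a 2 * b 0 - a 0 * b 2) - (1 - c) * s *
      (v 2 * (a 1 * b 2 - a 2 * b 1) - v 0 * (a 0 * b 1 - a 1 * b 0))) * h1 -
      v 1 * (v 0 * (a 1 * b 2 - a 2 * b 1) + v 1 * (a 2 * b 0 - a 0 * b 2) +
        v 2 * (a 0 * b 1 - a 1 * b 0)) * h2
  · rw [rt_crs_2, rt_Rot_apply, rt_Rot_apply, rt_Rot_apply, rt_Rot_apply, rt_Rot_apply]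
    simp only [rt_crs_0, rt_crs_1, rt_crs_2, Pool.Agent.Helper76.Freq.inner3]
    generalize Real.cos α = c at *
    generalize Real.sin α = s at *
    linear_combination (-(c * (1 - c)) * (a 0 * b 1 - a 1 * b 0) - (1 - c) * s *
      (v 0 * (a 2 * b 0 - a 0 * b 2) - v 1 * (a 1 * b 2 - a 2 * b 1))) * h1 -
      v 2 * (v 0 * (a 1 * b 2 - a 2 * b 1) + v 1 * (a 2 * b 0 - a 0 * b 2) +
        v 2 * (a 0 * b 1 - a 1 * b 0)) * h2

theorem Rot_Rot {w : R3} (hw : ‖w‖ = 1) (θ α : ℝ) (v a : R3) :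
    Rot (Rot w θ v) α (Rot w θ a) = Rot w θ (Rot v α a) := by
  have h1 : Rot v α a = Real.cos α • a + ((1 - Real.cos α) * ⟪v, a⟫) • v + Real.sin α • crs v a := rfl
  have h2 : Rot (Rot w θ v) α (Rot w θ a) = Real.cos α • Rot w θ a +
    ((1 - Real.cos α) * ⟪Rot w θ v, Rot w θ a⟫) • Rot w θ v +
      Real.sin α • crs (Rot w θ v) (Rot w θ a) := rfl
  rw [h1, h2, rt_Rot_add, rt_Rot_add, rt_Rot_smul, rt_Rot_smul, rt_Rot_smul, Rot_crs hw, Rot_inner hw]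

theorem Rot_self {v : R3} (hv : ‖v‖ = 1) (α : ℝ) : Rot v α v = v := by
  have h1 := rt_norm3_one hv
  apply rt_ext3 <;>
  simp only [rt_Rot_apply, rt_crs_0, rt_crs_1, rt_crs_2, Pool.Agent.Helper76.Freq.inner3]
  · linear_combination (1 - Real.cos α) * v 0 * h1
  · linear_combination (1 - Real.cos α) * v 1 * h1
  · linear_combination (1 - Real.cos α) * v 2 * h1

theorem Rot_zero (v a : R3) : Rot v 0 a = a := by
  simp [Rot]

theorem Rot_two_pi (v a : R3) : Rot v (2 * Real.pi) a = a := by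
  simp [Rot]

theorem Rot_neg (v : R3) (α : ℝ) (a : R3) : Rot v α (-a) = - Rot v α a := by
  have := rt_Rot_smul v α (-1) a
  simpa using this

theorem Rot_neg_axis (v : R3) (α : ℝ) (a : R3) : Rot (-v) α a = Rot v (-α) a := by
  apply rt_ext3 <;>
  simp only [rt_Rot_apply, PiLp.neg_apply, rt_crs_0, rt_crs_1, rt_crs_2, Real.cos_neg, Real.sin_neg,
    Pool.Agent.Helper76.Freq.inner3] <;> ring

theorem Rot_add_two_pi (v : R3) (α : ℝ) (a : R3) : Rot v (α + 2 * Real.pi) a = Rot v α a := by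
  simp [Rot]

theorem rt_ext5 {y y' : E 4} (h0 : y 0 = y' 0) (h1 : y 1 = y' 1) (h2 : y 2 = y' 2) (h3 : y 3 = y' 3)
    (h4 : y 4 = y' 4) : y = y' := by
  ext i
  fin_cases i
  · exact h0
  · exact h1
  · exact h2
  · exact h3
  · exact h4

theorem rt_ver_neg (a : R3) (i : Fin 5) : ver (-a) i = ver a i := by
  fin_cases i
  · change √3 * (-a 0) * (-a 1) = √3 * a 0 * a 1
    ring
  · change √3 * (-a 0) * (-a 2) = √3 * a 0 * a 2
    ring
  · change √3 * (-a 1) * (-a 2) = √3 * a 1 * a 2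
    ring
  · change √3 / 2 * ((-a 0) ^ 2 - (-a 2) ^ 2) = √3 / 2 * (a 0 ^ 2 - a 2 ^ 2)
    ring
  · change ((-a 0) ^ 2 + (-a 2) ^ 2 - 2 * (-a 1) ^ 2) / 2 = (a 0 ^ 2 + a 2 ^ 2 - 2 * a 1 ^ 2) / 2
    ring

theorem ver5_neg (a : R3) : ver5 (-a) = ver5 a := by
  unfold ver5
  simp only [rt_ver_neg]

theorem rt_emb_0 (y : E 4) : emb y 0 = y 0 := rfl
theorem rt_emb_1 (y : E 4) : emb y 1 = y 1 := rfl
theorem rt_emb_2 (y : E 4) : emb y 2 = y 2 := rfl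
theorem rt_emb_3 (y : E 4) : emb y 3 = y 3 := rfl
theorem rt_emb_4 (y : E 4) : emb y 4 = y 4 := rfl
theorem rt_emb_5 (y : E 4) : emb y 5 = 0 := rfl
theorem rt_emb_6 (y : E 4) : emb y 6 = 0 := rfl

theorem emb_lp (v a b : R3) (s t : ℝ) : emb (lp v a b s t) =
    pt ((1 + s) / √(3 + s ^ 2)) (Rot v (2 * Real.pi * t) a) ((1 - s) / √(3 + s ^ 2))
      (Rot v (2 * Real.pi * t) b) 0 0 := by
  rfl

theorem rt_mk_eq_lp (v a b : R3) : mk a b = lp v a b 0 0 := by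
  unfold mk lp
  rw [mul_zero, Rot_zero, Rot_zero, smul_sub]
  norm_num

theorem emb_mk (a b : R3) : emb (mk a b) = pt (√3)⁻¹ a (√3)⁻¹ b 0 0 := by
  have : mk a b = lp 0 a b 0 0 := rt_mk_eq_lp 0 a b
  rw [this, emb_lp, mul_zero, Rot_zero, Rot_zero]
  norm_num

theorem norm_emb (y : E 4) : ‖emb y‖ = ‖y‖ := by
  have h1 := Pool.Agent.Helper76.Freq.norm7 (emb y)
  have h2 : ‖y‖ ^ 2 = y 0 ^ 2 + y 1 ^ 2 + y 2 ^ 2 + y 3 ^ 2 + y 4 ^ 2 := by
    rw [EuclideanSpace.real_norm_sq_eq, Fin.sum_univ_five]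
  rw [rt_emb_0, rt_emb_1, rt_emb_2, rt_emb_3, rt_emb_4, rt_emb_5, rt_emb_6] at h1
  refine (sq_eq_sq₀ (norm_nonneg _) (norm_nonneg _)).1 ?_
  rw [h1, h2]; ring

theorem emb_inj {y y' : E 4} (h : emb y = emb y') : y = y' := by
  apply rt_ext5
  · rw [← rt_emb_0 y, h, rt_emb_0]
  · rw [← rt_emb_1 y, h, rt_emb_1]
  · rw [← rt_emb_2 y, h, rt_emb_2]
  · rw [← rt_emb_3 y, h, rt_emb_3]
  · rw [← rt_emb_4 y, h, rt_emb_4]

theorem rt_sqrt_s_sq (s : ℝ) : √(3 + s ^ 2) ^ 2 = 3 + s ^ 2 := Real.sq_sqrt (by positivity)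

theorem rt_sqrt_s_pos (s : ℝ) : 0 < √(3 + s ^ 2) := Real.sqrt_pos.2 (by positivity)

theorem norm_lp {v a b : R3} {s : ℝ} (hv : ‖v‖ = 1) (ha : ‖a‖ = 1) (hb : ‖b‖ = 1)
    (h : ⟪a, b⟫ = 0 ∨ s = 1 ∨ s = -1) (t : ℝ) : ‖lp v a b s t‖ = 1 := by
  have h0 := rt_sqrt_s_pos s
  have h1 := rt_sqrt_s_sq s
  have h2 : ‖emb (lp v a b s t)‖ ^ 2 = 1 := by
    rw [emb_lp, Pool.Agent.Helper76.Freq.norm_sq_pt' _ _ _ _ (by rw [Rot_norm hv, ha])
      (by rw [Rot_norm hv, hb]), Rot_inner hv]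
    have h3 : (1 - s ^ 2) * ⟪a, b⟫ ^ 2 = 0 := by
      rcases h with h | h | h <;> rw [h] <;> ring
    field_simp
    linear_combination -h1 - 3 * h3
  rw [norm_emb] at h2
  exact (sq_eq_sq₀ (norm_nonneg _) zero_le_one).1 (by rw [h2]; norm_num)

theorem Hf_lp {v a b : R3} {s : ℝ} (hv : ‖v‖ = 1) (ha : ‖a‖ = 1) (hb : ‖b‖ = 1)
    (h : ⟪a, b⟫ = 0 ∨ s = 1 ∨ s = -1) (t : ℝ) :
    Hf (lp v a b s t) = (9 * s - s ^ 3) / √(3 + s ^ 2) ^ 3 := by
  have h0 := rt_sqrt_s_pos s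
  have h3 : (1 - s ^ 2) * ⟪a, b⟫ ^ 2 = 0 := by
    rcases h with h | h | h <;> rw [h] <;> ring
  rw [Hf, emb_lp, Pool.Agent.Helper76.Freq.H4_gen, Rot_norm hv, Rot_norm hv, ha, hb, Rot_inner hv]
  field_simp
  linear_combination (-18 * s) * h3

theorem norm_mk {a b : R3} (ha : ‖a‖ = 1) (hb : ‖b‖ = 1) (h : ⟪a, b⟫ = 0) : ‖mk a b‖ = 1 := by
  rw [rt_mk_eq_lp a]
  exact norm_lp ha ha hb (Or.inl h) 0

theorem Hf_mk {a b : R3} (ha : ‖a‖ = 1) (hb : ‖b‖ = 1) (h : ⟪a, b⟫ = 0) : Hf (mk a b) = 0 := by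
  rw [rt_mk_eq_lp a, Hf_lp ha ha hb (Or.inl h) 0]
  norm_num

/-- `H ≠ 0` for `s ≠ 0` -/
theorem lp_ne_mk {v a b a' b' : R3} {s : ℝ} (hv : ‖v‖ = 1) (ha : ‖a‖ = 1) (hb : ‖b‖ = 1)
    (h : ⟪a, b⟫ = 0 ∨ s = 1 ∨ s = -1) (ha' : ‖a'‖ = 1) (hb' : ‖b'‖ = 1) (h' : ⟪a', b'⟫ = 0)
    (hs : |s| ≤ 1) (hs0 : s ≠ 0) (t : ℝ) : lp v a b s t ≠ mk a' b' := by
  intro he
  have h1 := Hf_lp hv ha hb h t
  rw [he, Hf_mk ha' hb' h'] at h1
  have h2 := rt_sqrt_s_pos s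
  have h3 : 9 * s - s ^ 3 = 0 := by
    have h4 := h1.symm
    rw [div_eq_zero_iff] at h4
    rcases h4 with h4 | h4
    · exact h4
    · exact absurd h4 (pow_ne_zero 3 h2.ne')
  have h5 : s * (9 - s ^ 2) = 0 := by linear_combination h3
  rcases mul_eq_zero.1 h5 with h6 | h6
  · exact hs0 h6
  · have h7 := abs_le.1 hs
    nlinarith [h7.1, h7.2]

theorem rt_e1_0 : e1 0 = 1 := rfl
theorem rt_e1_1 : e1 1 = 0 := rfl
theorem rt_e1_2 : e1 2 = 0 := rfl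
theorem rt_e2_0 : e2 0 = 0 := rfl
theorem rt_e2_1 : e2 1 = 1 := rfl
theorem rt_e2_2 : e2 2 = 0 := rfl
theorem rt_e3_0 : e3 0 = 0 := rfl
theorem rt_e3_1 : e3 1 = 0 := rfl
theorem rt_e3_2 : e3 2 = 1 := rfl

theorem rt_v0_0 : v0 0 = (√3)⁻¹ := by
  change (√3)⁻¹ * 1 = (√3)⁻¹
  ring
theorem rt_v0_1 : v0 1 = (√3)⁻¹ := by
  change (√3)⁻¹ * 1 = (√3)⁻¹
  ring
theorem rt_v0_2 : v0 2 = (√3)⁻¹ := by
  change (√3)⁻¹ * 1 = (√3)⁻¹
  ring

theorem rt_norm_of_sq {v : R3} (h : v 0 ^ 2 + v 1 ^ 2 + v 2 ^ 2 = 1) : ‖v‖ = 1 := by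
  rw [← Pool.Agent.Helper76.Freq.norm3] at h
  exact (sq_eq_sq₀ (norm_nonneg _) zero_le_one).1 (by rw [h]; norm_num)

theorem rt_isq3 : ((√3)⁻¹ : ℝ) ^ 2 = 1 / 3 := by
  rw [inv_pow, Pool.Agent.Helper76.Freq.sqrt3_sq]; norm_num

theorem norm_v0 : ‖v0‖ = 1 := by
  apply rt_norm_of_sq
  rw [rt_v0_0, rt_v0_1, rt_v0_2, rt_isq3]; norm_num

theorem rt_norm_e1 : ‖e1‖ = 1 := by
  apply rt_norm_of_sq
  rw [rt_e1_0, rt_e1_1, rt_e1_2]; norm_num
theorem rt_norm_e2 : ‖e2‖ = 1 := by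
  apply rt_norm_of_sq
  rw [rt_e2_0, rt_e2_1, rt_e2_2]; norm_num
theorem rt_norm_e3 : ‖e3‖ = 1 := by
  apply rt_norm_of_sq
  rw [rt_e3_0, rt_e3_1, rt_e3_2]; norm_num

theorem rt_inner_e1_e3 : ⟪e1, e3⟫ = 0 := by
  rw [Pool.Agent.Helper76.Freq.inner3, rt_e1_0, rt_e1_1, rt_e1_2, rt_e3_0, rt_e3_1, rt_e3_2]; norm_num

theorem rt_inner_e1 (a : R3) : ⟪a, e1⟫ = a 0 := by
  rw [Pool.Agent.Helper76.Freq.inner3, rt_e1_0, rt_e1_1, rt_e1_2]; ring
theorem rt_inner_e2 (a : R3) : ⟪a, e2⟫ = a 1 := by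
  rw [Pool.Agent.Helper76.Freq.inner3, rt_e2_0, rt_e2_1, rt_e2_2]; ring
theorem rt_inner_e3 (a : R3) : ⟪a, e3⟫ = a 2 := by
  rw [Pool.Agent.Helper76.Freq.inner3, rt_e3_0, rt_e3_1, rt_e3_2]; ring

theorem rt_crs_e3_e1 : crs e3 e1 = e2 := by
  apply rt_ext3
  · rw [rt_crs_0, rt_e3_1, rt_e1_2, rt_e3_2, rt_e1_1, rt_e2_0]; norm_num
  · rw [rt_crs_1, rt_e3_2, rt_e1_0, rt_e3_0, rt_e1_2, rt_e2_1]; norm_num
  · rw [rt_crs_2, rt_e3_0, rt_e1_1, rt_e3_1, rt_e1_0, rt_e2_2]; norm_num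

theorem rt_isq3' : ((√3)⁻¹ : ℝ) * (√3)⁻¹ = 1 / 3 := by
  rw [← sq, rt_isq3]

theorem rt_sin_two_thirds : Real.sin (2 * Real.pi / 3) = √3 / 2 := by
  rw [show 2 * Real.pi / 3 = Real.pi - Real.pi / 3 by ring, Real.sin_pi_sub, Real.sin_pi_div_three]

theorem rt_cos_two_thirds : Real.cos (2 * Real.pi / 3) = -1 / 2 := by
  rw [show 2 * Real.pi / 3 = Real.pi - Real.pi / 3 by ring, Real.cos_pi_sub, Real.cos_pi_div_three]
  norm_num

theorem rt_sqrt3_inv : (√3 : ℝ) * (√3)⁻¹ = 1 := mul_inv_cancel₀ (by positivity)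

theorem Rot_v0_third : Rot v0 (2 * Real.pi / 3) e1 = e2 ∧ Rot v0 (2 * Real.pi / 3) e2 = e3 ∧
    Rot v0 (2 * Real.pi / 3) e3 = e1 := by
  have h1 := rt_isq3
  have h2 := rt_sqrt3_inv
  refine ⟨?_, ?_, ?_⟩
  · apply rt_ext3 <;> simp only [rt_Rot_apply, rt_inner_e1, rt_cos_two_thirds, rt_sin_two_thirds, rt_crs_0, rt_crs_1,
      rt_crs_2, rt_v0_0, rt_v0_1, rt_v0_2, rt_e1_0, rt_e1_1, rt_e1_2, rt_e2_0, rt_e2_1, rt_e2_2]
    · linear_combination 3 / 2 * h1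
    · linear_combination 3 / 2 * h1 + 1 / 2 * h2
    · linear_combination 3 / 2 * h1 - 1 / 2 * h2
  · apply rt_ext3 <;> simp only [rt_Rot_apply, rt_inner_e2, rt_cos_two_thirds, rt_sin_two_thirds, rt_crs_0, rt_crs_1,
      rt_crs_2, rt_v0_0, rt_v0_1, rt_v0_2, rt_e3_0, rt_e3_1, rt_e3_2, rt_e2_0, rt_e2_1, rt_e2_2]
    · linear_combination 3 / 2 * h1 - 1 / 2 * h2
    · linear_combination 3 / 2 * h1
    · linear_combination 3 / 2 * h1 + 1 / 2 * h2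
  · apply rt_ext3 <;> simp only [rt_Rot_apply, rt_inner_e3, rt_cos_two_thirds, rt_sin_two_thirds, rt_crs_0, rt_crs_1,
      rt_crs_2, rt_v0_0, rt_v0_1, rt_v0_2, rt_e3_0, rt_e3_1, rt_e3_2, rt_e1_0, rt_e1_1, rt_e1_2]
    · linear_combination 3 / 2 * h1 + 1 / 2 * h2
    · linear_combination 3 / 2 * h1 - 1 / 2 * h2
    · linear_combination 3 / 2 * h1

/-! ## the hit lemmas -/

theorem rt_crs_smul (r r' : ℝ) (a b : R3) : crs (r • a) (r' • b) = (r * r') • crs a b := by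
  apply rt_ext3 <;> simp only [rt_crs_0, rt_crs_1, rt_crs_2, PiLp.smul_apply, smul_eq_mul] <;> ring

theorem rt_dec3 (z : R3) : z = z 0 • e1 + z 1 • e2 + z 2 • e3 := by
  apply rt_ext3 <;> simp only [PiLp.add_apply, PiLp.smul_apply, smul_eq_mul, rt_e1_0, rt_e1_1, rt_e1_2, rt_e2_0,
    rt_e2_1, rt_e2_2, rt_e3_0, rt_e3_1, rt_e3_2] <;> ring

theorem rt_Rot_dec (v : R3) (β : ℝ) (z : R3) :
    Rot v β z = z 0 • Rot v β e1 + z 1 • Rot v β e2 + z 2 • Rot v β e3 := by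
  conv_lhs => rw [rt_dec3 z]
  rw [rt_Rot_add, rt_Rot_add, rt_Rot_smul, rt_Rot_smul, rt_Rot_smul]

theorem rt_vec3_0 (a b c : ℝ) : (!₂[a, b, c] : R3) 0 = a := rfl
theorem rt_vec3_1 (a b c : ℝ) : (!₂[a, b, c] : R3) 1 = b := rfl
theorem rt_vec3_2 (a b c : ℝ) : (!₂[a, b, c] : R3) 2 = c := rfl

/-- the general form of the hit lemmas -/
theorem rt_hit_gen {v w : R3} {s t α : ℝ} (hv : ‖v‖ = 1) (hw : ‖w‖ = 1) (hs : |s| ≤ 1)
    (h : lp v e1 e3 s t = mk (Rot w α e1) (Rot w α e3)) :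
    s = 0 ∧ ∃ ε δ : ℝ, (ε = 1 ∨ ε = -1) ∧ (δ = 1 ∨ δ = -1) ∧
      Rot v (2 * Real.pi * t) e1 = ε • Rot w α e1 ∧ Rot v (2 * Real.pi * t) e3 = δ • Rot w α e3 ∧
      v = Rot w α (!₂[ε * v 0, δ * ε * v 1, δ * v 2]) := by
  have hs0 : s = 0 := by
    by_contra hc
    exact lp_ne_mk hv rt_norm_e1 rt_norm_e3 (Or.inl rt_inner_e1_e3) (by rw [Rot_norm hw, rt_norm_e1])
      (by rw [Rot_norm hw, rt_norm_e3]) (by rw [Rot_inner hw, rt_inner_e1_e3]) hs hc t h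
  subst hs0
  refine ⟨rfl, ?_⟩
  have h1 := congrArg emb h
  rw [emb_lp, emb_mk] at h1
  have h3 : (√3)⁻¹ = (1 + 0) / √(3 + (0 : ℝ) ^ 2) := by norm_num
  have h4 : (√3)⁻¹ = (1 - 0) / √(3 + (0 : ℝ) ^ 2) := by norm_num
  rw [← h3, ← h4] at h1
  have hp : (0 : ℝ) < (√3)⁻¹ := by positivity
  have n1 : ‖Rot v (2 * Real.pi * t) e1‖ = 1 := by rw [Rot_norm hv, rt_norm_e1]
  have n3 : ‖Rot v (2 * Real.pi * t) e3‖ = 1 := by rw [Rot_norm hv, rt_norm_e3]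
  have n13 : ⟪Rot v (2 * Real.pi * t) e1, Rot v (2 * Real.pi * t) e3⟫ = 0 := by
    rw [Rot_inner hv, rt_inner_e1_e3]
  have m1 : ‖Rot w α e1‖ = 1 := by rw [Rot_norm hw, rt_norm_e1]
  have m3 : ‖Rot w α e3‖ = 1 := by rw [Rot_norm hw, rt_norm_e3]
  have m13 : ⟪Rot w α e1, Rot w α e3⟫ = 0 := by
    rw [Rot_inner hw, rt_inner_e1_e3]
  have ht := Pool.Agent.Helper76.Freq.isTop_pt (σ := 0) (t := 0) hp.le hp.le n1 n3 n13
  have hb := Pool.Agent.Helper76.Freq.isBot_pt (σ := 0) (t := 0) hp.le hp.le n1 n3 n13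
  rw [h1] at ht hb
  have ht' := Pool.Agent.Helper76.Freq.eq_of_isTop_pt hp hp.le m1 m3 m13 ht
  have hb' := Pool.Agent.Helper76.Freq.eq_of_isBot_pt hp.le hp m1 m3 m13 hb
  have ht2 : ∃ ε : ℝ, (ε = 1 ∨ ε = -1) ∧ Rot v (2 * Real.pi * t) e1 = ε • Rot w α e1 := by
    rcases ht' with h | h
    · exact ⟨1, Or.inl rfl, by rw [h, one_smul]⟩
    · exact ⟨-1, Or.inr rfl, by rw [h, neg_one_smul]⟩
  have hb2 : ∃ δ : ℝ, (δ = 1 ∨ δ = -1) ∧ Rot v (2 * Real.pi * t) e3 = δ • Rot w α e3 := by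
    rcases hb' with h | h
    · exact ⟨1, Or.inl rfl, by rw [h, one_smul]⟩
    · exact ⟨-1, Or.inr rfl, by rw [h, neg_one_smul]⟩
  obtain ⟨ε, hε, h5⟩ := ht2
  obtain ⟨δ, hδ, h6⟩ := hb2
  refine ⟨ε, δ, hε, hδ, h5, h6, ?_⟩
  have h7 : Rot v (2 * Real.pi * t) e2 = (δ * ε) • Rot w α e2 := by
    rw [← rt_crs_e3_e1, Rot_crs hv, h5, h6, rt_crs_smul, Rot_crs hw]
  have h8 : Rot v (2 * Real.pi * t) v = v := Rot_self hv _
  rw [rt_Rot_dec, h5, h6, h7] at h8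
  rw [rt_Rot_dec w α (!₂[ε * v 0, δ * ε * v 1, δ * v 2]), rt_vec3_0, rt_vec3_1, rt_vec3_2]
  conv_lhs => rw [← h8]
  simp only [smul_smul]
  congr 1
  · congr 1
    · rw [mul_comm]
    · rw [mul_comm (v 1)]
  · rw [mul_comm]

theorem hit0 {v : R3} {s t : ℝ} (hv : ‖v‖ = 1) (hs : |s| ≤ 1)
    (h : lp v e1 e3 s t = mk (Rot v0 (2 * Real.pi / 3) e1) (Rot v0 (2 * Real.pi / 3) e3)) :
    s = 0 ∧ ∀ i, v i ≠ 0 := by
  obtain ⟨hs0, ε, δ, hε, hδ, h1, h2, h3⟩ := rt_hit_gen hv norm_v0 hs h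
  refine ⟨hs0, ?_⟩
  have hn := rt_norm3_one hv
  rw [rt_Rot_dec, rt_vec3_0, rt_vec3_1, rt_vec3_2, Rot_v0_third.1, Rot_v0_third.2.1, Rot_v0_third.2.2] at h3
  have hε2 : ε ^ 2 = 1 := by rcases hε with h | h <;> rw [h] <;> norm_num
  have hδ2 : δ ^ 2 = 1 := by rcases hδ with h | h <;> rw [h] <;> norm_num
  have k0 := congrArg (fun z : R3 => z 0) h3
  have k1 := congrArg (fun z : R3 => z 1) h3
  have k2 := congrArg (fun z : R3 => z 2) h3
  simp only [PiLp.add_apply, PiLp.smul_apply, smul_eq_mul, rt_e1_0, rt_e1_1, rt_e1_2, rt_e2_0,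
    rt_e2_1, rt_e2_2, rt_e3_0, rt_e3_1, rt_e3_2, mul_zero, mul_one, add_zero, zero_add] at k0 k1 k2
  have q0 : v 0 ^ 2 = v 2 ^ 2 := by
    have : v 0 ^ 2 = (δ * v 2) ^ 2 := by rw [← k0]
    rw [this, mul_pow, hδ2, one_mul]
  have q1 : v 1 ^ 2 = v 0 ^ 2 := by
    have : v 1 ^ 2 = (ε * v 0) ^ 2 := by rw [← k1]
    rw [this, mul_pow, hε2, one_mul]
  intro i hi
  fin_cases i
  · change v 0 = 0 at hi
    rw [hi] at q0 q1 hn
    nlinarith
  · change v 1 = 0 at hi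
    rw [hi] at q1 hn
    nlinarith
  · change v 2 = 0 at hi
    rw [hi] at q0 hn
    nlinarith

theorem rt_Rot_inner_self {v : R3} (w : R3) (α : ℝ) (hv : ‖v‖ = 1) :
    ⟪Rot w α v, v⟫ = Real.cos α + (1 - Real.cos α) * ⟪w, v⟫ ^ 2 := by
  have h1 := rt_norm3_one hv
  rw [Pool.Agent.Helper76.Freq.inner3]
  simp only [rt_Rot_apply, rt_crs_0, rt_crs_1, rt_crs_2, Pool.Agent.Helper76.Freq.inner3]
  linear_combination Real.cos α * h1

theorem rt_cos_lt_one_of {α : ℝ} (hα : 0 < α) (hα' : α < 2 * Real.pi) : Real.cos α < 1 := by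
  rcases lt_or_eq_of_le (Real.cos_le_one α) with h | h
  · exact h
  · exfalso
    rw [Real.cos_eq_one_iff] at h
    obtain ⟨n, hn⟩ := h
    have hp := Real.pi_pos
    rw [← hn] at hα hα'
    have h1 : (0 : ℝ) < n := by
      by_contra hc
      push Not at hc
      nlinarith
    have h2 : (n : ℝ) < 1 := by
      by_contra hc
      push Not at hc
      nlinarith
    have h3 : (0 : ℤ) < n := by exact_mod_cast h1
    have h4 : n < (1 : ℤ) := by exact_mod_cast h2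
    omega

/-- a vector fixed by a proper rotation is on the axis -/
theorem rt_fixed_of_Rot {v w : R3} {α : ℝ} (hv : ‖v‖ = 1) (hw : ‖w‖ = 1) (hα : 0 < α)
    (hα' : α < 2 * Real.pi) (h : Rot w α v = v) : v = w ∨ v = -w := by
  have h1 := rt_Rot_inner_self w α hv
  rw [h, real_inner_self_eq_norm_sq, hv] at h1
  have h2 := rt_cos_lt_one_of hα hα'
  have h3 : (1 - Real.cos α) * (1 - ⟪w, v⟫ ^ 2) = 0 := by linear_combination h1
  rcases mul_eq_zero.1 h3 with h4 | h4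
  · linarith
  · exact Pool.Agent.Helper76.Freq.eq_or_neg_of_inner_sq hw hv (by linarith)

theorem hit1 {v : R3} {s t α : ℝ} (hv : ‖v‖ = 1) (h0 : ∀ i, 0 ≤ v i) (hs : |s| ≤ 1)
    (ht : t ∈ Set.Icc (0 : ℝ) 1) (hα : 0 < α) (hα' : α < 2 * Real.pi)
    (h : lp v e1 e3 s t = mk (Rot v0 α e1) (Rot v0 α e3)) :
    s = 0 ∧ v = v0 ∧ t = α / (2 * Real.pi) := by
  obtain ⟨hs0, ε, δ, hε, hδ, h1, h2, h3⟩ := rt_hit_gen hv norm_v0 hs h
  refine ⟨hs0, ?_⟩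
  have hn := rt_norm3_one hv
  have g0 := h0 0
  have g1 := h0 1
  have g2 := h0 2
  have hp3 : (0 : ℝ) < (√3)⁻¹ := by positivity
  -- inner product with the axis
  have h4 : ⟪v0, v⟫ = ⟪v0, !₂[ε * v 0, δ * ε * v 1, δ * v 2]⟫ := by
    conv_lhs => rw [h3]
    have h5 := Rot_inner norm_v0 α v0 !₂[ε * v 0, δ * ε * v 1, δ * v 2]
    rw [Rot_self norm_v0] at h5
    exact h5
  rw [Pool.Agent.Helper76.Freq.inner3, Pool.Agent.Helper76.Freq.inner3, rt_v0_0, rt_v0_1, rt_v0_2,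
    rt_vec3_0, rt_vec3_1, rt_vec3_2] at h4
  have h5 : (1 - ε) * v 0 + (1 - δ * ε) * v 1 + (1 - δ) * v 2 = 0 := by
    have : (√3)⁻¹ * ((1 - ε) * v 0 + (1 - δ * ε) * v 1 + (1 - δ) * v 2) = 0 := by
      linear_combination h4
    rcases mul_eq_zero.1 this with h | h
    · exact absurd h hp3.ne'
    · exact h
  have e0 : 0 ≤ 1 - ε := by rcases hε with h | h <;> rw [h] <;> norm_num
  have e1' : 0 ≤ 1 - δ := by rcases hδ with h | h <;> rw [h] <;> norm_num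
  have e2' : 0 ≤ 1 - δ * ε := by
    rcases hδ with h | h <;> rcases hε with h' | h' <;> rw [h, h'] <;> norm_num
  have p0 := mul_nonneg e0 g0
  have p1 := mul_nonneg e2' g1
  have p2 := mul_nonneg e1' g2
  have z0 : (1 - ε) * v 0 = 0 := by linarith
  have z1 : (1 - δ * ε) * v 1 = 0 := by linarith
  have z2 : (1 - δ) * v 2 = 0 := by linarith
  have h6 : !₂[ε * v 0, δ * ε * v 1, δ * v 2] = v := by
    apply rt_ext3
    · rw [rt_vec3_0]; linear_combination -z0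
    · rw [rt_vec3_1]; linear_combination -z1
    · rw [rt_vec3_2]; linear_combination -z2
  rw [h6] at h3
  have hvv : v = v0 := by
    rcases rt_fixed_of_Rot hv norm_v0 hα hα' h3.symm with h | h
    · exact h
    · exfalso
      rw [h] at g0
      rw [PiLp.neg_apply, rt_v0_0] at g0
      linarith
  refine ⟨hvv, ?_⟩
  subst hvv
  rw [rt_v0_0] at z0
  rw [rt_v0_2] at z2
  have y0 : ε = 1 := by
    rcases mul_eq_zero.1 z0 with h | h
    · linarith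
    · exact absurd h hp3.ne'
  have y2 : δ = 1 := by
    rcases mul_eq_zero.1 z2 with h | h
    · linarith
    · exact absurd h hp3.ne'
  rw [y0, one_smul] at h1
  have k0 := congrArg (fun z : R3 => z 0) h1
  have k1 := congrArg (fun z : R3 => z 1) h1
  simp only [rt_Rot_apply, rt_inner_e1, rt_crs_0, rt_crs_1, rt_v0_0, rt_v0_1, rt_v0_2, rt_e1_0, rt_e1_1, rt_e1_2] at k0 k1
  have hi := rt_isq3
  have c1 : Real.cos (2 * Real.pi * t) = Real.cos α := by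
    linear_combination 3 / 2 * k0 + 3 / 2 * (Real.cos (2 * Real.pi * t) - Real.cos α) * hi
  have c2 : Real.sin (2 * Real.pi * t) = Real.sin α := by
    rw [c1] at k1
    have : (√3)⁻¹ * (Real.sin (2 * Real.pi * t) - Real.sin α) = 0 := by linear_combination k1
    rcases mul_eq_zero.1 this with h | h
    · exact absurd h hp3.ne'
    · linarith
  have c3 : Real.cos (2 * Real.pi * t - α) = 1 := by
    rw [Real.cos_sub, c1, c2]
    linear_combination Real.sin_sq_add_cos_sq α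
  rw [Real.cos_eq_one_iff] at c3
  obtain ⟨n, hn'⟩ := c3
  have hp := Real.pi_pos
  have u1 : (-1 : ℝ) < n := by
    by_contra hc
    push Not at hc
    have := mul_nonneg hp.le ht.1
    nlinarith
  have u2 : (n : ℝ) < 1 := by
    by_contra hc
    push Not at hc
    have := mul_nonneg hp.le (sub_nonneg.2 ht.2)
    nlinarith
  have u3 : (-1 : ℤ) < n := by exact_mod_cast u1
  have u4 : n < (1 : ℤ) := by exact_mod_cast u2
  have u5 : n = 0 := by omega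
  rw [u5] at hn'
  push_cast at hn'
  rw [eq_div_iff (by positivity)]
  linarith

theorem rt_Rot_pi {w : R3} (a : R3) : Rot w Real.pi a = (2 * ⟪w, a⟫) • w - a := by
  unfold Rot
  rw [Real.cos_pi, Real.sin_pi, zero_smul, add_zero, neg_one_smul]
  rw [show (1 - (-1 : ℝ)) = 2 by norm_num]
  abel

theorem hit2 {y w : R3} {s t : ℝ} (hy : ‖y‖ = 1) (hw : ‖w‖ = 1) (hs : |s| ≤ 1)
    (hyw : 0 < ⟪w, y⟫) (h1 : w ≠ e1 ∧ w ≠ -e1) (h2 : w ≠ e2 ∧ w ≠ -e2) (h3 : w ≠ e3 ∧ w ≠ -e3)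
    (h : lp y e1 e3 s t = mk (Rot w Real.pi e1) (Rot w Real.pi e3)) : s = 0 ∧ y = w := by
  obtain ⟨hs0, ε, δ, hε, hδ, h4, h5, h6⟩ := rt_hit_gen hy hw hs h
  refine ⟨hs0, ?_⟩
  have h7 : Rot w Real.pi y = !₂[ε * y 0, δ * ε * y 1, δ * y 2] := by
    conv_lhs => rw [h6]
    rw [rt_Rot_pi, rt_Rot_pi, inner_sub_right, inner_smul_right, real_inner_self_eq_norm_sq, hw]
    rw [show (2 * (2 * ⟪w, !₂[ε * y 0, δ * ε * y 1, δ * y 2]⟫ * 1 ^ 2 -
      ⟪w, !₂[ε * y 0, δ * ε * y 1, δ * y 2]⟫)) = 2 * ⟪w, !₂[ε * y 0, δ * ε * y 1, δ * y 2]⟫ by ring]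
    abel
  rw [rt_Rot_pi] at h7
  have hw' := rt_norm3_one hw
  have k0 : 2 * ⟪w, y⟫ * w 0 - y 0 = ε * y 0 := congrArg (fun z : R3 => z 0) h7
  have k1 : 2 * ⟪w, y⟫ * w 1 - y 1 = δ * ε * y 1 := congrArg (fun z : R3 => z 1) h7
  have k2 : 2 * ⟪w, y⟫ * w 2 - y 2 = δ * y 2 := congrArg (fun z : R3 => z 2) h7
  have hsq : ∀ r : ℝ, r ^ 2 = 1 → r = 1 ∨ r = -1 := by
    intro r hr
    have : (r - 1) * (r + 1) = 0 := by ring_nf; linarith
    rcases mul_eq_zero.1 this with h | h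
    · left; linarith
    · right; linarith
  rcases hε with rfl | rfl <;> rcases hδ with rfl | rfl
  · -- identity
    have l1 : y = ⟪w, y⟫ • w := by
      apply rt_ext3 <;> simp only [PiLp.smul_apply, smul_eq_mul]
      · linear_combination -1 / 2 * k0
      · linear_combination -1 / 2 * k1
      · linear_combination -1 / 2 * k2
    have l2 := congrArg norm l1
    rw [norm_smul, hy, hw, mul_one, Real.norm_eq_abs, abs_of_pos hyw] at l2
    rw [← l2, one_smul] at l1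
    exact l1
  · exfalso
    have m1 : w 1 = 0 := by
      have : ⟪w, y⟫ * w 1 = 0 := by linear_combination 1 / 2 * k1
      rcases mul_eq_zero.1 this with h | h
      · exact absurd h hyw.ne'
      · exact h
    have m2 : w 2 = 0 := by
      have : ⟪w, y⟫ * w 2 = 0 := by linear_combination 1 / 2 * k2
      rcases mul_eq_zero.1 this with h | h
      · exact absurd h hyw.ne'
      · exact h
    rw [m1, m2] at hw'
    rcases hsq (w 0) (by linarith) with h | h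
    · exact h1.1 (rt_ext3 h m1 m2)
    · exact h1.2 (rt_ext3 (by rw [h]; rfl) (by rw [m1, PiLp.neg_apply, rt_e1_1, neg_zero])
        (by rw [m2, PiLp.neg_apply, rt_e1_2, neg_zero]))
  · exfalso
    have m0 : w 0 = 0 := by
      have : ⟪w, y⟫ * w 0 = 0 := by linear_combination 1 / 2 * k0
      rcases mul_eq_zero.1 this with h | h
      · exact absurd h hyw.ne'
      · exact h
    have m1 : w 1 = 0 := by
      have : ⟪w, y⟫ * w 1 = 0 := by linear_combination 1 / 2 * k1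
      rcases mul_eq_zero.1 this with h | h
      · exact absurd h hyw.ne'
      · exact h
    rw [m0, m1] at hw'
    rcases hsq (w 2) (by linarith) with h | h
    · exact h3.1 (rt_ext3 m0 m1 h)
    · exact h3.2 (rt_ext3 (by rw [m0, PiLp.neg_apply, rt_e3_0, neg_zero])
        (by rw [m1, PiLp.neg_apply, rt_e3_1, neg_zero]) (by rw [h]; rfl))
  · exfalso
    have m0 : w 0 = 0 := by
      have : ⟪w, y⟫ * w 0 = 0 := by linear_combination 1 / 2 * k0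
      rcases mul_eq_zero.1 this with h | h
      · exact absurd h hyw.ne'
      · exact h
    have m2 : w 2 = 0 := by
      have : ⟪w, y⟫ * w 2 = 0 := by linear_combination 1 / 2 * k2
      rcases mul_eq_zero.1 this with h | h
      · exact absurd h hyw.ne'
      · exact h
    rw [m0, m2] at hw'
    rcases hsq (w 1) (by linarith) with h | h
    · exact h2.1 (rt_ext3 m0 h m2)
    · exact h2.2 (rt_ext3 (by rw [m0, PiLp.neg_apply, rt_e2_0, neg_zero]) (by rw [h]; rfl)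
        (by rw [m2, PiLp.neg_apply, rt_e2_2, neg_zero]))

theorem rt_Rot_v0_pi : Rot v0 Real.pi e1 = a0 ∧ Rot v0 Real.pi e3 = b0 := by
  have hi := rt_isq3
  constructor
  · rw [rt_Rot_pi, rt_inner_e1]
    apply rt_ext3 <;> simp only [PiLp.sub_apply, PiLp.smul_apply, smul_eq_mul, rt_v0_0, rt_v0_1, rt_v0_2, rt_e1_0,
      rt_e1_1, rt_e1_2]
    · change _ = (-1 / 3 : ℝ)
      linear_combination 2 * hi
    · change _ = (2 / 3 : ℝ)
      linear_combination 2 * hi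
    · change _ = (2 / 3 : ℝ)
      linear_combination 2 * hi
  · rw [rt_Rot_pi, rt_inner_e3]
    apply rt_ext3 <;> simp only [PiLp.sub_apply, PiLp.smul_apply, smul_eq_mul, rt_v0_0, rt_v0_1, rt_v0_2, rt_e3_0,
      rt_e3_1, rt_e3_2]
    · change _ = (2 / 3 : ℝ)
      linear_combination 2 * hi
    · change _ = (2 / 3 : ℝ)
      linear_combination 2 * hi
    · change _ = (-1 / 3 : ℝ)
      linear_combination 2 * hi

theorem qpi_eq : qpi = mk (Rot v0 Real.pi e1) (Rot v0 Real.pi e3) := by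
  rw [rt_Rot_v0_pi.1, rt_Rot_v0_pi.2]
  rfl

end Pool.Agent.Helper50.Drop
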